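import Pool.Agent.Lib.helper10.Kit

namespace Pool.Agent.Results.MP_391ee8_lc.NPHard

open Pool.Agent.Cx Pool.Agent.Cis

/-- chromatic number equals clique number on every induced subgraph -/
def Perfect {V : Type} (G : SimpleGraph V) : Prop :=
  ∀ S : Set V, (G.induce S).chromaticNumber = (G.induce S).cliqueNum

/-- a proper colouring with colours in `{1, ..., k}` -/
def IsCol {V : Type} (G : SimpleGraph V) (k : ℕ) (f : V → ℕ) : Prop :=
  (∀ v, 1 ≤ f v ∧ f v ≤ k) ∧ ∀ v w, G.Adj v w → f v ≠ f w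

/-- two `k`-colourings that differ at most at one vertex -/
def Step {V : Type} (G : SimpleGraph V) (k : ℕ) (f g : V → ℕ) : Prop :=
  IsCol G k f ∧ IsCol G k g ∧ ∃ w, ∀ v, v ≠ w → g v = f v

abbrev Inst := List (List Bool) × ℕ × List ℕ

/-- the initial colouring of an instance -/
def start (z : Inst) (v : Fin z.1.length) : ℕ := z.2.2.getD v 0

/-- a perfect (even bipartite) graph with an edge, and a `k`-colouring of it -/
def Valid (z : Inst) : Prop :=
  IsGraph z.1 ∧ graphOf z.1 ≠ ⊥ ∧ Perfect (graphOf z.1) ∧ (graphOf z.1).Colorable 2 ∧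
    z.2.2.length = z.1.length ∧ IsCol (graphOf z.1) z.2.1 (start z)

/-- some `k`-reachable colouring uses at most two colours -/
def Two (z : Inst) : Prop :=
  ∃ f, Relation.ReflTransGen (Step (graphOf z.1) z.2.1) (start z) f ∧ (Set.range f).ncard ≤ 2

section
variable {V : Type} [Finite V] {G : SimpleGraph V} {k : ℕ}

lemma perfect (h : G.Colorable 2) : Perfect G := fun S => by
  classical
  refine le_antisymm ?_ SimpleGraph.cliqueNum_le_chromaticNumber
  by_cases c : G.induce S = ⊥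
  · rcases isEmpty_or_nonempty S with e | ⟨⟨v⟩⟩
    · simp [SimpleGraph.chromaticNumber_eq_zero_of_isEmpty]
    · have : Nonempty S := ⟨v⟩
      have := SimpleGraph.IsClique.card_le_cliqueNum (G := G.induce S) (t := {v}) (tc := by simp)
      rw [c, SimpleGraph.chromaticNumber_bot, ← c]
      exact_mod_cast this
  · obtain ⟨u, v, a⟩ := SimpleGraph.ne_bot_iff_exists_adj.1 c
    have := SimpleGraph.IsClique.card_le_cliqueNum (G := G.induce S) (t := {u, v})
      (tc := by simpa using fun _ => a)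
    rw [Finset.card_pair a.ne] at this
    exact (h.of_hom (SimpleGraph.Embedding.induce S).toHom).chromaticNumber_le.trans
      (by exact_mod_cast this)

lemma bulk {f g : V → ℕ} (hf : IsCol G k f) (hg : IsCol G k g)
    (h : ∀ u v, G.Adj u v → f u = g u ∨ f v = g v) : Relation.ReflTransGen (Step G k) f g := by
  classical
  have := Fintype.ofFinite V
  have c : ∀ T : Finset V, IsCol G k fun v => if v ∈ T then g v else f v := fun T =>
    ⟨fun v => by have := hf.1 v; have := hg.1 v; simp only; split_ifs <;> assumption, fun u v a => by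
      have := hf.2 u v a; have := hg.2 u v a; have := h u v a; simp only; split_ifs <;> omega⟩
  have : ∀ T : Finset V, Relation.ReflTransGen (Step G k) f fun v => if v ∈ T then g v else f v :=
    fun T => by
    induction T using Finset.induction_on with
    | empty => simpa using .refl
    | insert w T _ ih => exact ih.tail ⟨c _, c _, w, fun v e => by simp [e]⟩
  simpa using this Finset.univ

end

def inC (n : ℕ) (K : List (List ℕ)) (j c : ℕ) : Prop :=
  4 ≤ c ∧ (c - 4) / 2 < n ∧ ke K j ((c - 4) / 2) ≠ 0 ∧ (ke K j ((c - 4) / 2) = 1 ↔ c % 2 = 0)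

def rel (n : ℕ) (K : List (List ℕ)) (p q : ℕ × ℕ) : Prop :=
  (p.1 = 0 ∧ q.1 = 2 ∧ max p.2 1 ≠ max q.2 1 ∧ ¬ (p.2 = 1 ∧ q.2 = 2) ∧ ¬ (p.2 = 0 ∧ q.2 = 3)) ∨
  (p.1 = 0 ∧ 3 ≤ q.1 ∧ p.2 + 1 ≠ q.1 ∧ ¬ inC n K q.2 p.2) ∨
  (p.1 = 1 ∧ q.1 = 2 ∧ q.2 ≠ 4 + 2 * p.2 ∧ q.2 ≠ 5 + 2 * p.2) ∨ (p.1 = 1 ∧ 3 ≤ q.1)

def adj (n : ℕ) (K : List (List ℕ)) (p q : ℕ × ℕ) : Prop := rel n K p q ∨ rel n K q p

instance (n : ℕ) (K : List (List ℕ)) : DecidableRel (adj n K) := fun _ _ => by
  unfold adj rel inC; infer_instance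

def ok (n m : ℕ) (p : ℕ × ℕ) : Prop :=
  ((p.1 = 0 ∨ p.1 = 2) ∧ p.2 ≤ 2 * n + 3) ∨ (p.1 = 1 ∧ p.2 < n) ∨ ((p.1 = 3 ∨ p.1 = 4) ∧ p.2 < m)

instance (n m : ℕ) : DecidablePred (ok n m) := fun _ => by unfold ok; infer_instance

def c0 (p : ℕ × ℕ) : ℕ := if p.1 = 1 then 4 + 2 * p.2 else if 3 ≤ p.1 then p.1 - 1 else max p.2 1

section
variable {V : Type} [Finite V] {G : SimpleGraph V} {n : ℕ} {K : List (List ℕ)} {f : V → ℕ × ℕ}
  (h1 : ∀ a b, G.Adj a b ↔ adj n K (f a) (f b)) (h2 : ∀ p, (∃ a, f a = p) ↔ ok n K.length p)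
include h1 h2

omit [Finite V] in
lemma col0 : IsCol G (2 * n + 3) fun a => c0 (f a) := by
  refine ⟨fun a => ?_, fun a b e => ?_⟩
  · have := (h2 _).1 ⟨a, rfl⟩
    simp only [ok, c0] at *; split_ifs <;> omega
  · have := (h2 _).1 ⟨a, rfl⟩
    have := (h2 _).1 ⟨b, rfl⟩
    simp only [h1, adj, rel, c0, ok] at *; split_ifs <;> omega

lemma forth (hK : MatSat n K) : ∃ g, Relation.ReflTransGen (Step G (2 * n + 3)) (fun a => c0 (f a)) g ∧
    (Set.range g).ncard ≤ 2 := by
  obtain ⟨τ, hτ⟩ := hK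
  let t : ℕ → ℕ := fun x => if τ x then 5 + 2 * x else 4 + 2 * x
  have t1 : ∀ x, t x = 5 + 2 * x ∨ t x = 4 + 2 * x := fun x => by simp only [t]; split_ifs <;> simp
  have : ∀ j, ∃ c, j < K.length → inC n K j c ∧ 4 ≤ c ∧ c ≤ 2 * n + 3 ∧ ∀ x, c ≠ t x := fun j => by
    by_cases c : j < K.length
    · obtain ⟨y, hy, b1, b2⟩ := hτ _ (List.getElem_mem c)
      refine ⟨9 + 4 * y - t y, fun _ => ?_⟩
      have := t1 y
      have e : (9 + 4 * y - t y - 4) / 2 = y := by omega
      refine ⟨⟨by omega, by omega, ?_⟩, by omega, by omega, fun x => by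
        by_cases d : x = y
        · subst d; omega
        · have := t1 x; omega⟩
      simp only [e, ke, List.getD_eq_getElem _ _ c, b2]
      refine ⟨b1, ?_⟩
      simp only [t]; split_ifs with h <;> simp [h] <;> omega
    · exact ⟨0, fun h => absurd h c⟩
  choose e he using this
  let F : ℕ → V → ℕ := fun s a =>
    if (f a).1 ≤ 1 then (if 5 ≤ s then 2 else if (f a).1 = 1 then (if 1 ≤ s then t (f a).2
      else 4 + 2 * (f a).2) else if 3 ≤ s ∧ (f a).2 ≤ 1 then 3 - (f a).2 else max (f a).2 1)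
    else if 4 ≤ s then 1 else if (f a).1 = 2 then max (f a).2 1 else if 2 ≤ s then e (f a).2
      else (f a).1 - 1
  have c : ∀ s, IsCol G (2 * n + 3) (F s) := fun s => by
    refine ⟨fun a => ?_, ?_⟩
    · have := (h2 _).1 ⟨a, rfl⟩
      have := t1 (f a).2
      have := fun h => (he (f a).2 h).2
      simp only [ok, F] at *; split_ifs <;> omega
    suffices ∀ a b, rel n K (f a) (f b) → F s a ≠ F s b from fun a b h =>
      ((h1 a b).1 h).elim (this a b) fun h => (this b a h).symm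
    intro a b h
    have := (h2 _).1 ⟨a, rfl⟩
    have := (h2 _).1 ⟨b, rfl⟩
    have := t1 (f a).2
    have : (f b).2 < K.length → 4 ≤ e (f b).2 ∧ e (f b).2 ≠ t (f a).2 := fun h =>
      ⟨(he _ h).2.1, (he _ h).2.2.2 _⟩
    have : (f a).1 = 0 → 3 ≤ (f b).1 → (f b).2 < K.length → e (f b).2 ≠ (f a).2 := fun a1 a2 a3 d => by
      have := d ▸ (he _ a3).1
      simp only [rel, this] at h; simp at h; omega
    simp only [rel, ok, F] at *
    split_ifs <;> omega
  have : ∀ s, Relation.ReflTransGen (Step G (2 * n + 3)) (F 0) (F s) := fun s => by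
    induction s with
    | zero => exact .refl
    | succ s ih =>
      refine ih.trans (bulk (c _) (c _) fun a b h => ?_)
      have : ((f a).1 ≤ 1 ∧ ¬ (f b).1 ≤ 1) ∨ (¬ (f a).1 ≤ 1 ∧ (f b).1 ≤ 1) := by
        simp only [h1, adj, rel] at h; omega
      by_cases d : s % 2 = 0 <;> rcases this with ⟨a1, a2⟩ | ⟨a1, a2⟩
      · right; simp only [F, a2, if_false]; split_ifs <;> omega
      · left; simp only [F, a1, if_false]; split_ifs <;> omega
      · left; simp only [F, a1, if_true]; split_ifs <;> omega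
      · right; simp only [F, a2, if_true]; split_ifs <;> omega
  refine ⟨F 5, ?_, (Set.ncard_le_ncard (t := {1, 2}) ?_).trans (Set.ncard_pair (by simp)).le⟩
  · convert this 5 with a
    simp only [F, c0]; split_ifs <;> omega
  · rintro _ ⟨a, rfl⟩
    simp only [F]; split_ifs <;> simp at *

lemma back (h3 : f.Injective) (hK : ¬ MatSat n K) {g : V → ℕ}
    (h : Relation.ReflTransGen (Step G (2 * n + 3)) (fun a => c0 (f a)) g) :
    3 ≤ (Set.range g).ncard := by
  have : ∀ a, (f a).1 = 0 ∨ (f a).1 = 2 → g a = max (f a).2 1 := by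
    induction h with
    | refl => intro a h; simp only [c0]; split_ifs <;> omega
    | @tail g g' _ s ih =>
      obtain ⟨c, c', w, s⟩ := s
      intro a ha
      by_cases e : a = w
      swap
      · rw [s a e, ih a ha]
      subst e
      by_contra e
      have a1 := c'.1 a
      have k : ∀ p : ℕ × ℕ, (p.1 = 0 ∨ p.1 = 2) → p.2 ≤ 2 * n + 3 → adj n K (f a) p →
          g' a ≠ max p.2 1 := fun p p1 p2 p3 => by
        obtain ⟨b, rfl⟩ := (h2 p).2 (Or.inl ⟨p1, p2⟩)
        have := (h1 a b).2 p3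
        rw [← ih b p1, ← s b this.ne']
        exact c'.2 a b this
      have k0 := fun h => k (0, g' a) (by simp) a1.2 (Or.inr (Or.inl h))
      have k1 := fun h => k (0, 0) (by simp) (by simp) (Or.inr (Or.inl h))
      have k2 := fun h => k (2, g' a) (by simp) a1.2 (Or.inl (Or.inl h))
      simp only [true_and, imp_iff_not_or] at k0 k1 k2
      have a2 : (f a).1 = 0 ∧ g' a + (f a).2 = 3 ∧ (f a).2 ≤ 1 := by omega
      have k : ∀ b (p : ℕ × ℕ), (p.1 = 0 ∨ p.1 = 2) → p.2 = g b → ¬ adj n K (f b) p :=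
        fun b p p1 p2 p3 => by
        have := c.1 b
        obtain ⟨d, rfl⟩ := (h2 p).2 (Or.inl ⟨p1, by omega⟩)
        exact c.2 b d ((h1 b d).2 p3) (by rw [ih d p1]; omega)
      classical
      refine hK ⟨fun x => decide (∃ b, f b = (1, x) ∧ g b = 5 + 2 * x), fun κ hκ => ?_⟩
      obtain ⟨j, hj, rfl⟩ := List.getElem_of_mem hκ
      obtain ⟨z, hz⟩ := (h2 (g' a + 1, j)).2 (Or.inr (Or.inr ⟨by omega, hj⟩))
      have z1 : G.Adj a z := by
        simp only [h1, hz, adj, rel, inC]; omega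
      have z2 := c'.2 a z z1
      rw [s z z1.ne'] at z2
      have z3 : inC n K j (g z) := by
        by_contra d
        exact k z (0, g z) (by simp) rfl (Or.inr (Or.inr (Or.inl (by simp [hz, d]; omega))))
      obtain ⟨b1, b2, b3, b4⟩ := z3
      obtain ⟨v, hv⟩ := (h2 (1, (g z - 4) / 2)).2 (Or.inr (Or.inl ⟨rfl, b2⟩))
      have v1 := fun h => k v (2, g v) (by simp) rfl (Or.inl (Or.inr (Or.inr (Or.inl h))))
      have v2 := c.2 v z ((h1 _ _).2 (Or.inl (Or.inr (Or.inr (Or.inr (by simp [hz, hv]; omega))))))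
      simp only [hv, true_and, imp_false] at v1
      simp only [ke, List.getD_eq_getElem _ _ hj] at b3 b4
      refine ⟨_, b2, b3, b4.trans ?_⟩
      rw [decide_eq_true_eq]
      refine ⟨fun d => ⟨v, hv, by omega⟩, fun ⟨b, d1, d2⟩ => ?_⟩
      obtain rfl := h3 (d1.trans hv.symm)
      omega
  refine (Set.ncard_eq_three.2 ⟨1, 2, 3, by simp, by simp, by simp, rfl⟩).ge.trans
    (Set.ncard_le_ncard ?_ (Set.finite_range g))
  intro c hc
  obtain ⟨a, ha⟩ := (h2 (0, c)).2 (Or.inl ⟨by simp, by simp at hc; omega⟩)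
  exact ⟨a, by rw [this a (by simp [ha]), ha]; simp at hc ⊢; omega⟩

end

def verts (I : ℕ × List (List ℕ)) : List (ℕ × ℕ) :=
  (List.range 5 ×ˢ List.range (2 * I.1 + 4 + I.2.length)).filter fun p => decide (ok I.1 I.2.length p)

def red (I : ℕ × List (List ℕ)) : Inst :=
  (mat (verts I) fun p q => decide (adj I.1 I.2 p q), 2 * I.1 + 3, (verts I).map c0)

lemma red_pt : PT red := by
  have : PT verts := PT.filter (PP.decide (by unfold ok; fun_prop)) (by fun_prop)
  have : PT c0 := PP.ite (by fun_prop) (by fun_prop) (PP.ite (by fun_prop) (by fun_prop) (by fun_prop))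
  refine PT.pair (PT.mat (by fun_prop) (PP.decide ?_)) (by fun_prop)
  unfold adj rel inC ke; fun_prop

theorem result (Q : Inst → Prop) (h : ∀ z, Valid z → (Q z ↔ Two z)) : NPHard (Lang Q) := by
  refine (Hard.of_matSat red_pt fun n K _ => ?_).npHard
  obtain ⟨g, f, h1, h2, h3, h4⟩ := graph_kit (verts (n, K)) (adj n K) (fun _ _ => Or.symm)
    (fun p => by unfold adj rel; omega)
    ((List.nodup_range.product List.nodup_range).filter _) (M := (red (n, K)).1) rfl
  have h2' : ∀ p, (∃ a, f a = p) ↔ ok n K.length p := by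
    rintro ⟨a, b⟩; simp [h2, verts, ok]; omega
  have e : start (red (n, K)) = fun a => c0 (f a) := by
    ext a; simp [start, red, List.getD_eq_getElem?_getD, h4]
  have b : (graphOf (red (n, K)).1).Colorable 2 :=
    ⟨SimpleGraph.Coloring.mk (fun a => if (f a).1 ≤ 1 then 0 else 1) fun {a b} h => by
      simp only [h1, adj, rel] at h
      split_ifs <;> omega⟩
  rw [h _ ⟨g, ?_, perfect b, b, by simp [red], e ▸ col0 h1 h2'⟩, Two, e]
  · refine ⟨forth h1 h2', fun ⟨g, a1, a2⟩ => ?_⟩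
    by_contra c
    have := back h1 h2' h3 c a1
    omega
  · obtain ⟨u, hu⟩ := (h2' (0, 2)).2 (by simp [ok])
    obtain ⟨v, hv⟩ := (h2' (2, 1)).2 (by simp [ok])
    exact SimpleGraph.ne_bot_iff_exists_adj.2 ⟨u, v, by simp [h1, hu, hv, adj, rel]⟩

end Pool.Agent.Results.MP_391ee8_lc.NPHard
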